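import Pool.Agent.W601.RP.Stm2

set_option autoImplicit false
open scoped Classical
open Filter Topology
open Pool.Agent.W601.RP

namespace Pool.Agent.W462.RP

noncomputable section

theorem finA {A : Set ℕ} (hA : FinCh A) {f : ℕ → TT} (hf : NullC f) {η : ℝ} (hη : 0 < η) :
    {t | t ∈ A ∧ η ≤ ‖f t‖}.Finite := by
  obtain ⟨F, hF, hAF⟩ := hA
  have h1 : (⋃ B ∈ F, {t | t ∈ B ∧ η ≤ ‖f t‖}).Finite :=
    Set.Finite.biUnion F.finite_toSet (fun B hB => hf B (hF B hB) η hη)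
  refine h1.subset ?_
  rintro t ⟨ht, ht2⟩
  have := hAF ht
  simp only [Set.mem_iUnion] at this ⊢
  obtain ⟨B, hB, htB⟩ := this
  exact ⟨B, hB, htB, ht2⟩

/-- Removing finitely many coordinates. -/
theorem remove (hN : S_NULL) (hC : S_CIR) (hR : S_RED) {A : Set ℕ} (χ : ↥H →+ TT)
    (t0 : ℕ) (k0 : ℕ →₀ ℤ)
    (hu : ∀ t ∈ A, t0 ≤ t → ∀ a : ℕ, ∃ h ∈ H, h t = ((((a : ℝ) / (N t : ℝ)) : ℝ) : TT) ∧
      ∀ u ∈ A, u ≠ t → h u = 0)
    (hv : ∀ t ∈ A, t0 ≤ t → ∀ h : ↥H, (∀ u ∈ A, u ≠ t → (h : ℕ → TT) u = 0) →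
      χ h = pr k0 (h : ℕ → TT)) (h : ↥H) (D : Finset ℕ) :
    (∀ t ∈ D, t ∈ A ∧ t0 ≤ t) →
    ∃ h' : ↥H, (∀ t ∈ D, (h' : ℕ → TT) t = 0) ∧
      (∀ u ∈ A, u ∉ D → (h' : ℕ → TT) u = (h : ℕ → TT) u) ∧
      χ h' - pr k0 (h' : ℕ → TT) = χ h - pr k0 (h : ℕ → TT) := by
  induction D using Finset.induction_on with
  | empty =>
    intro _
    exact ⟨h, by simp, by simp, rfl⟩
  | insert t D htD ih =>
    intro hD
    obtain ⟨g, hg1, hg2, hg3⟩ := ih (fun u hu => hD u (Finset.mem_insert_of_mem hu))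
    obtain ⟨htA, ht0⟩ := hD t (Finset.mem_insert_self t D)
    have hNt : 1 ≤ N t := by
      unfold N
      have := Nat.factorial_pos (t + 1)
      omega
    obtain ⟨a, -, ha⟩ := hC.2.2.2.2 (N t) ((g : ℕ → TT) t) hNt (hN.2 _ g.2 t)
    obtain ⟨f, hfH, hft, hfA⟩ := hu t htA ht0 a
    have hχf : χ ⟨f, hfH⟩ = pr k0 f := hv t htA ht0 ⟨f, hfH⟩ hfA
    refine ⟨g - ⟨f, hfH⟩, ?_, ?_, ?_⟩
    · intro u huD
      rw [AddSubgroup.coe_sub, Pi.sub_apply]
      rcases Finset.mem_insert.mp huD with rfl | huD'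
      · simp only [hft, ha, sub_self]
      · have hne : u ≠ t := fun h => htD (h ▸ huD')
        have h1 : f u = 0 := hfA u (hD u huD).1 hne
        simp only [h1, hg1 u huD', sub_zero]
    · intro u huA huD
      rw [AddSubgroup.coe_sub, Pi.sub_apply]
      have hne : u ≠ t := fun h => huD (h ▸ Finset.mem_insert_self t D)
      have h1 : f u = 0 := hfA u huA hne
      have h2 := hg2 u huA (fun h => huD (Finset.mem_insert_of_mem h))
      simp only [h1, h2, sub_zero]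
    · have h1 : (g : ℕ → TT) = ((g - ⟨f, hfH⟩ : ↥H) : ℕ → TT) + f := by
        rw [AddSubgroup.coe_sub]
        simp
      have h2 := hR.2.2.1 k0 ((g - ⟨f, hfH⟩ : ↥H) : ℕ → TT) f
      rw [← h1] at h2
      rw [map_sub, hχf, ← hg3, h2]
      abel

theorem bb : S_NULL → S_CIR → S_RED → S_BB := by
  intro hN hC hR A hA χ ε hε hχ t0 k0 hk0 hu hv h h0
  set C : ℝ := ∑ t ∈ k0.support, |(k0 t : ℝ)| with hCdef
  have hC0 : 0 ≤ C := Finset.sum_nonneg (fun _ _ => abs_nonneg _)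
  have key : ∀ (m : ℕ) (η : ℝ), 1 ≤ m → 0 < η → (m : ℝ) * η < ε →
      ‖χ h - pr k0 (h : ℕ → TT)‖ ≤ 1 / (4 * (m : ℝ)) + C * η := by
    intro m η hm hη hmη
    have hfin := finA hA (hN.1 _ h.2) hη
    obtain ⟨h', h1, h2, h3⟩ := remove hN hC hR χ t0 k0 hu hv h hfin.toFinset (by
      intro t ht
      rw [Set.Finite.mem_toFinset] at ht
      refine ⟨ht.1, ?_⟩
      by_contra hlt
      have := h0 t ht.1 (not_le.mp hlt)
      have h4 := ht.2
      rw [this, norm_zero] at h4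
      linarith)
    have hsmall : ∀ t ∈ A, ‖(h' : ℕ → TT) t‖ ≤ η := by
      intro t ht
      by_cases hD : t ∈ hfin.toFinset
      · rw [h1 t hD, norm_zero]
        exact hη.le
      · rw [h2 t ht hD]
        rw [Set.Finite.mem_toFinset] at hD
        by_contra hcon
        exact hD ⟨ht, (not_le.mp hcon).le⟩
    have hχ' : ‖χ h'‖ ≤ 1 / (4 * (m : ℝ)) := by
      refine hC.2.1 (χ h') m hm (fun m' hm' hmm => ?_)
      have e : m' • χ h' = χ (m' • h') := (map_nsmul χ m' h').symm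
      rw [e]
      refine hχ _ (fun t ht => ?_)
      rw [AddSubgroup.coe_nsmul, Pi.smul_apply]
      have hs := hsmall t ht
      calc ‖m' • (h' : ℕ → TT) t‖ ≤ (m' : ℝ) * ‖(h' : ℕ → TT) t‖ := norm_nsmul_le
        _ ≤ (m : ℝ) * η := by
          apply mul_le_mul (by exact_mod_cast hmm) hs (norm_nonneg _) (by positivity)
        _ < ε := hmη
    have hpr : ‖pr k0 (h' : ℕ → TT)‖ ≤ C * η :=
      hR.2.2.2 k0 (h' : ℕ → TT) η (fun t ht => hsmall t (hk0 t ht).1)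
    rw [← h3]
    exact (norm_sub_le _ _).trans (add_le_add hχ' hpr)
  by_contra hne
  have hz : 0 < ‖χ h - pr k0 (h : ℕ → TT)‖ := norm_pos_iff.mpr (sub_ne_zero.mpr hne)
  set z : ℝ := ‖χ h - pr k0 (h : ℕ → TT)‖ with hzdef
  obtain ⟨m, hm⟩ := exists_nat_gt (1 / z)
  have hm0 : (0 : ℝ) < m := lt_trans (by positivity) hm
  have hm1 : 1 ≤ m := by
    have : 0 < m := by exact_mod_cast hm0
    omega
  have hmz : 1 / (4 * (m : ℝ)) < z / 2 := by
    rw [div_lt_iff₀ (by positivity)]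
    rw [div_lt_iff₀ hz] at hm
    nlinarith
  have hη : 0 < min (ε / (2 * m)) (z / (2 * (C + 1))) := by
    apply lt_min <;> positivity
  have h1 := key m (min (ε / (2 * m)) (z / (2 * (C + 1)))) hm1 hη (by
    calc (m : ℝ) * min (ε / (2 * m)) (z / (2 * (C + 1))) ≤ m * (ε / (2 * m)) :=
          mul_le_mul_of_nonneg_left (min_le_left _ _) hm0.le
      _ = ε / 2 := by field_simp
      _ < ε := by linarith)
  have h2 : C * min (ε / (2 * m)) (z / (2 * (C + 1))) ≤ z / 2 := by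
    calc C * min (ε / (2 * m)) (z / (2 * (C + 1))) ≤ C * (z / (2 * (C + 1))) :=
          mul_le_mul_of_nonneg_left (min_le_right _ _) hC0
      _ ≤ (C + 1) * (z / (2 * (C + 1))) :=
          mul_le_mul_of_nonneg_right (by linarith) (by positivity)
      _ = z / 2 := by
        have : C + 1 ≠ 0 := by positivity
        field_simp
  linarith

end

end Pool.Agent.W462.RP
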