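import Pool.Agent.W829.RP.Defs

/-!
# Comparison of distributions of products
-/

set_option autoImplicit false

open MeasureTheory Set
open scoped ENNReal

namespace W462.RP

open Pool.Agent.W829.RP

lemma scal {X Y : Type} [MeasurableSpace X] [MeasurableSpace Y] (μ : Measure X) (ν : Measure Y)
    (f : X → ℝ≥0∞) (g : Y → ℝ≥0∞) (A : ℝ≥0∞) (hf : ∀ x, f x < ⊤) (hg : ∀ y, g y < ⊤)
    (h : ∀ s : ℝ≥0∞, μ {x | f x < s} ≤ A * ν {y | g y < s}) (a : ℝ≥0∞) (ha : a < ⊤) (t : ℝ≥0∞) :
    μ {x | a * f x < t} ≤ A * ν {y | a * g y < t} := by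
  rcases eq_or_ne a 0 with rfl | ha0
  · simp only [zero_mul]
    rcases eq_or_ne t 0 with rfl | ht
    · simp
    · have h1 := h ⊤
      have e1 : {x | f x < ⊤} = univ := eq_univ_of_forall hf
      have e2 : {y | g y < ⊤} = univ := eq_univ_of_forall hg
      rw [e1, e2] at h1
      have e3 : ∀ Z : Type, {_z : Z | (0 : ℝ≥0∞) < t} = univ := fun Z =>
        eq_univ_of_forall fun _ => pos_iff_ne_zero.2 ht
      rw [e3, e3]
      exact h1
  · have key : ∀ c : ℝ≥0∞, a * c < t ↔ c < t / a := by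
      intro c
      rw [ENNReal.lt_div_iff_mul_lt (Or.inl ha0) (Or.inl ha.ne), mul_comm]
    simp only [key]
    exact h _

lemma two {X X' Y Y' : Type} [MeasurableSpace X] [MeasurableSpace X'] [MeasurableSpace Y]
    [MeasurableSpace Y'] (μ : Measure X) (μ' : Measure X') (ν : Measure Y) (ν' : Measure Y')
    [SFinite μ] [SFinite μ'] [SFinite ν] [SFinite ν'] (f : X → ℝ≥0∞) (f' : X' → ℝ≥0∞)
    (g : Y → ℝ≥0∞) (g' : Y' → ℝ≥0∞) (A B : ℝ≥0∞) (hfm : Measurable f) (hfm' : Measurable f')
    (hgm : Measurable g) (hgm' : Measurable g') (hf : ∀ x, f x < ⊤) (hf' : ∀ x, f' x < ⊤)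
    (hg : ∀ y, g y < ⊤) (hg' : ∀ y, g' y < ⊤)
    (h : ∀ s : ℝ≥0∞, μ {x | f x < s} ≤ A * ν {y | g y < s})
    (h' : ∀ s : ℝ≥0∞, μ' {x | f' x < s} ≤ B * ν' {y | g' y < s}) (t : ℝ≥0∞) :
    (μ.prod μ') {p | f p.1 * f' p.2 < t} ≤ A * B * (ν.prod ν') {q | g q.1 * g' q.2 < t} := by
  have m1 : MeasurableSet {p : X × X' | f p.1 * f' p.2 < t} :=
    measurableSet_lt ((hfm.comp measurable_fst).mul (hfm'.comp measurable_snd)) measurable_const
  have m2 : MeasurableSet {p : X × Y' | f p.1 * g' p.2 < t} :=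
    measurableSet_lt ((hfm.comp measurable_fst).mul (hgm'.comp measurable_snd)) measurable_const
  have m3 : MeasurableSet {p : Y × Y' | g p.1 * g' p.2 < t} :=
    measurableSet_lt ((hgm.comp measurable_fst).mul (hgm'.comp measurable_snd)) measurable_const
  calc (μ.prod μ') {p | f p.1 * f' p.2 < t}
      = ∫⁻ x, μ' {x' | f x * f' x' < t} ∂μ := Measure.prod_apply m1
    _ ≤ ∫⁻ x, B * ν' {y' | f x * g' y' < t} ∂μ := by
        refine lintegral_mono fun x => ?_
        exact scal μ' ν' f' g' B hf' hg' h' (f x) (hf x) t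
    _ = B * ∫⁻ x, ν' {y' | f x * g' y' < t} ∂μ :=
        lintegral_const_mul _ (measurable_measure_prodMk_left m2)
    _ = B * (μ.prod ν') {p | f p.1 * g' p.2 < t} := by
        congr 1
        exact (Measure.prod_apply m2).symm
    _ = B * ∫⁻ y', μ {x | f x * g' y' < t} ∂ν' := by
        congr 1
        exact Measure.prod_apply_symm m2
    _ ≤ B * ∫⁻ y', A * ν {y | g y * g' y' < t} ∂ν' := by
        gcongr with y'
        have h1 := scal μ ν f g A hf hg h (g' y') (hg' y') t
        simp only [mul_comm (g' y')] at h1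
        exact h1
    _ = B * (A * ∫⁻ y', ν {y | g y * g' y' < t} ∂ν') := by
        congr 1
        exact lintegral_const_mul _ (measurable_measure_prodMk_right m3)
    _ = B * (A * (ν.prod ν') {q | g q.1 * g' q.2 < t}) := by
        congr 2
        exact (Measure.prod_apply_symm m3).symm
    _ = A * B * (ν.prod ν') {q | g q.1 * g' q.2 < t} := by ring

lemma pi_succ (m : ℕ) (X : Fin (m + 1) → Type) [∀ i, MeasurableSpace (X i)]
    (μ : ∀ i, Measure (X i)) [∀ i, IsFiniteMeasure (μ i)] (f : ∀ i, X i → ℝ≥0∞)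
    (hf : ∀ i, Measurable (f i)) (t : ℝ≥0∞) :
    Measure.pi μ {x | ∏ i, f i (x i) < t} =
      ((μ 0).prod (Measure.pi fun j => μ ((0 : Fin (m + 1)).succAbove j)))
        {p | f 0 p.1 * ∏ j, f ((0 : Fin (m + 1)).succAbove j) (p.2 j) < t} := by
  have h := measurePreserving_piFinSuccAbove μ 0
  have hm : MeasurableSet {p : X 0 × (∀ j, X ((0 : Fin (m + 1)).succAbove j)) |
      f 0 p.1 * ∏ j, f ((0 : Fin (m + 1)).succAbove j) (p.2 j) < t} := by
    refine measurableSet_lt (((hf 0).comp measurable_fst).mul ?_) measurable_const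
    refine Finset.measurable_fun_prod _ fun j _ => ?_
    exact (hf _).comp ((measurable_pi_apply j).comp measurable_snd)
  rw [← h.measure_preimage hm.nullMeasurableSet]
  congr 1
  ext x
  simp only [mem_ofPred_eq, mem_preimage]
  rw [Fin.prod_univ_succAbove _ 0]
  rfl

theorem pm : S_PM := by
  intro m
  induction m with
  | zero =>
    intro X Y _ _ μ ν _ _ f g A hf hg hfT hgT hA h t
    have e1 : {x : ∀ i, X i | ∏ i, f i (x i) < t} = {x | 1 < t} := by
      ext x
      simp
    have e2 : {y : ∀ i, Y i | ∏ i, g i (y i) < t} = {y | 1 < t} := by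
      ext y
      simp
    rw [e1, e2, Measure.pi_of_empty μ, Measure.pi_of_empty ν]
    simp only [Finset.univ_eq_empty, Finset.prod_empty, one_mul]
    by_cases ht : 1 < t
    · simp [ht]
    · simp [ht]
  | succ m ih =>
    intro X Y _ _ μ ν _ _ f g A hf hg hfT hgT hA h t
    rw [pi_succ m X μ f hf t, pi_succ m Y ν g hg t, Fin.prod_univ_succAbove A 0]
    refine two (μ 0) (Measure.pi fun j => μ ((0 : Fin (m + 1)).succAbove j)) (ν 0)
      (Measure.pi fun j => ν ((0 : Fin (m + 1)).succAbove j)) (f 0)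
      (fun x => ∏ j, f ((0 : Fin (m + 1)).succAbove j) (x j)) (g 0)
      (fun x => ∏ j, g ((0 : Fin (m + 1)).succAbove j) (x j)) (A 0) _ (hf 0) ?_ (hg 0) ?_
      (hfT 0) ?_ (hgT 0) ?_ (h 0) ?_ t
    · exact Finset.measurable_fun_prod _ fun j _ => (hf _).comp (measurable_pi_apply j)
    · exact Finset.measurable_fun_prod _ fun j _ => (hg _).comp (measurable_pi_apply j)
    · exact fun x => ENNReal.prod_lt_top fun j _ => hfT _ _
    · exact fun x => ENNReal.prod_lt_top fun j _ => hgT _ _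
    · intro s
      exact ih (fun j => X ((0 : Fin (m + 1)).succAbove j)) (fun j => Y ((0 : Fin (m + 1)).succAbove j))
        (fun j => μ ((0 : Fin (m + 1)).succAbove j)) (fun j => ν ((0 : Fin (m + 1)).succAbove j))
        (fun j => f ((0 : Fin (m + 1)).succAbove j)) (fun j => g ((0 : Fin (m + 1)).succAbove j))
        (fun j => A ((0 : Fin (m + 1)).succAbove j)) (fun j => hf _) (fun j => hg _)
        (fun j => hfT _) (fun j => hgT _) (fun j => hA _) (fun j => h _) s

end W462.RP
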